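import Mathlib

open Finset Filter Topology

namespace Pool.Agent.H.MP_7b2682_an

def D (i : ℕ) : ℕ := 2 ^ (i + 1) + 1

lemma D_pos (i : ℕ) : 0 < D i := Nat.succ_pos _

lemma zone_uniq {n s t i j : ℕ} (h1 : n / 2 ^ s = D i) (h2 : n / 2 ^ t = D j) : s = t ∧ i = j := by
  wlog h : s ≤ t generalizing s t i j
  · obtain ⟨a, b⟩ := this h2 h1 (by omega)
    exact ⟨a.symm, b.symm⟩
  obtain ⟨d, rfl⟩ := Nat.exists_eq_add_of_le h
  rw [pow_add, ← Nat.div_div_eq_div_mul, h1] at h2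
  rcases d with _ | d
  · simp only [pow_zero, Nat.div_one, D, add_left_inj] at h2
    exact ⟨rfl, by simpa using h2⟩
  · exfalso
    rw [pow_succ', ← Nat.div_div_eq_div_mul, show D i / 2 = 2 ^ i by unfold D; omega] at h2
    rcases le_or_gt d i with h | h
    · rw [Nat.pow_div h two_pos, D] at h2
      rcases e : i - d with _ | c
      · rw [e] at h2; have := Nat.two_pow_pos (j + 1); omega
      · rw [e] at h2; omega
    · rw [Nat.div_eq_of_lt (Nat.pow_lt_pow_right one_lt_two h)] at h2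
      exact (D_pos j).ne h2

lemma div_iff {n q c : ℕ} (hq : 0 < q) : n / q = c ↔ q * c ≤ n ∧ n < q * (c + 1) := by
  constructor
  · rintro rfl
    exact ⟨Nat.mul_div_le n q, Nat.lt_mul_div_succ n hq⟩
  · rintro ⟨h1, h2⟩
    exact Nat.div_eq_of_lt_le (by linarith) (by linarith)

lemma div2 {n a c : ℕ} : n / 2 ^ a = c ↔ 2 ^ a * c ≤ n ∧ n < 2 ^ a * (c + 1) :=
  div_iff (Nat.two_pow_pos a)

noncomputable def red (ρ : ℕ → ℕ) (n : ℕ) : ℕ := if _h : ρ n < n then red ρ (ρ n) else n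
termination_by n

lemma red_le (ρ : ℕ → ℕ) (n : ℕ) : red ρ n ≤ n := by
  induction n using Nat.strong_induction_on with
  | _ n ih =>
    rw [red]
    split_ifs with h
    · exact (ih _ h).trans h.le
    · exact le_rfl

def lev (i a : ℕ) : ℕ := padicValNat 2 (a / (i + 3))

def Ok (i N a : ℕ) : Prop := (i + 3) ∣ a ∧ 0 < a ∧ N ≤ a

lemma lev_le {i N a : ℕ} (h : Ok i N a) : 2 * lev i a ≤ a := by
  obtain ⟨⟨c, rfl⟩, h0, -⟩ := h
  have hc : 0 < c := Nat.pos_of_mul_pos_left h0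
  rw [lev, Nat.mul_div_cancel_left _ (by omega)]
  have h1 := Nat.le_of_dvd hc (pow_padicValNat_dvd (p := 2) (n := c))
  have h2 := (padicValNat 2 c).lt_two_pow_self
  nlinarith

def Cp (i N n a : ℕ) : Prop := Ok i N a ∧ n / 2 ^ a = 4 * D i + 2 ∧ n % 4 ^ lev i a < 2 ^ lev i a

def Ret (i N m a : ℕ) : Prop := Ok i N a ∧ m / 2 ^ a = 4 * D i + 2 ∧ 4 ^ lev i a ∣ m

lemma half {n a c : ℕ} (h : n / 2 ^ a = 4 * c + 2) : n / 2 ^ (a + 1) = 2 * c + 1 := by
  rw [pow_succ, ← Nat.div_div_eq_div_mul, h]; omega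

lemma whole {n a c : ℕ} (h : n / 2 ^ (a + 1) = 2 * c + 1) : n / 2 ^ (a + 2) = c := by
  rw [pow_succ, ← Nat.div_div_eq_div_mul, h]; omega

open Classical in
noncomputable def rho (i N n : ℕ) : ℕ :=
  if h : ∃ a, Cp i N n a then n % 4 ^ lev i h.choose else n

noncomputable def r (i N : ℕ) : ℕ → ℕ := red (rho i N)

variable {i N n m a : ℕ}

lemma r_le : r i N n ≤ n := red_le _ _

lemma r_fix (h : ¬ ∃ a, Cp i N n a) : r i N n = n := by
  rw [r, red, rho, dif_neg h, dif_neg (lt_irrefl _)]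

lemma Cp.ge (h : Cp i N n a) : 2 ^ a ≤ n := by
  have := (div2.1 h.2.1).1
  nlinarith [Nat.two_pow_pos a]

lemma r_cp (h : Cp i N n a) : r i N n = r i N (n % 4 ^ lev i a) := by
  have h0 : ∃ a, Cp i N n a := ⟨a, h⟩
  have e : h0.choose = a := by
    simpa using (zone_uniq (whole (half h0.choose_spec.2.1)) (whole (half h.2.1))).1
  have e2 : rho i N n = n % 4 ^ lev i a := by rw [rho, dif_pos h0, e]
  have h1 : 2 ^ lev i a ≤ 2 ^ a := Nat.pow_le_pow_right two_pos (by have := lev_le h.1; omega)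
  rw [r, red, e2, dif_pos (h.2.2.trans_le (h1.trans h.ge))]

lemma r_small (h : n ≤ N) : r i N n = n := r_fix fun ⟨a, ha⟩ => by
  have := ha.ge
  have := ha.1.2.2
  have := a.lt_two_pow_self
  omega

lemma four_eq (k : ℕ) : 4 ^ k = 2 ^ (2 * k) := by rw [pow_mul]; rfl

lemma r_ret (h : Ret i N m a) {j : ℕ} (hj : j < 2 ^ lev i a) : r i N (m + j) = r i N j := by
  have h1 : j < 4 ^ lev i a := hj.trans_le (Nat.pow_le_pow_left (by norm_num) _)
  obtain ⟨h2, h3, c, hc⟩ := h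
  have h4 : (m + j) % 4 ^ lev i a = j := by
    rw [hc, Nat.mul_add_mod, Nat.mod_eq_of_lt h1]
  obtain ⟨e, he⟩ := Nat.exists_eq_add_of_le (lev_le h2)
  rw [r_cp (a := a) ⟨h2, ?_, by rwa [h4]⟩, h4]
  have h5 : 2 ^ a = 4 ^ lev i a * 2 ^ e := by rw [four_eq, ← pow_add, ← he]
  have p : 0 < 4 ^ lev i a := by positivity
  rw [← h3, h5, ← Nat.div_div_eq_div_mul, ← Nat.div_div_eq_div_mul, hc, Nat.mul_add_div p,
    Nat.div_eq_of_lt h1, Nat.mul_div_cancel_left _ p, add_zero]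

def Low (i N t n : ℕ) : Prop := ∃ a, Ok i N a ∧ lev i a < t ∧ n / 2 ^ (a + 1) = 2 * D i + 1

/-- support of the tailored block -/
def Y (i N : ℕ) (α : ℕ × ℕ) (n : ℕ) : Prop := 2 ^ (α.1 + α.2) ≤ n ∧ ¬ Low i N α.2 n

variable {α : ℕ × ℕ}

lemma W_ge (h : n / 2 ^ α.1 = D α.2) : 2 ^ (α.1 + α.2) ≤ n := by
  refine le_trans ?_ (div2.1 h).1
  rw [pow_add]
  exact Nat.mul_le_mul_left _ (by have := Nat.two_pow_pos α.2; unfold D; omega)

lemma chi2 (hα : α.2 ≠ i) (h : n / 2 ^ α.1 = D α.2) : Y i N α (r i N n) := by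
  rw [r_fix fun ⟨a, ha⟩ => hα (zone_uniq h (whole (half ha.2.1))).2]
  exact ⟨W_ge h, fun ⟨a, ha⟩ => hα (zone_uniq h (whole ha.2.2)).2⟩

lemma chi3 (h : Ret i N m a) (hk : lev i a < α.2) {j : ℕ} (hj : j < 2 ^ a) :
    ¬ Y i N α (r i N (m + j)) := by
  have h1 : (m + j) / 2 ^ (a + 1) = 2 * D i + 1 := by
    have := div2.1 h.2.1
    rw [div2, pow_succ]
    constructor <;> nlinarith
  by_cases hc : ∃ a, Cp i N (m + j) a
  · obtain ⟨b, hb⟩ := hc
    obtain rfl : b = a := by simpa using (zone_uniq (whole (half hb.2.1)) (whole h1)).1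
    rw [r_cp hb]
    refine fun hy => (hy.1.trans r_le).not_gt (hb.2.2.trans_le ?_)
    exact Nat.pow_le_pow_right two_pos (by omega)
  · rw [r_fix hc]
    exact fun hy => hy.2 ⟨a, h.1, hk, h1⟩

lemma same (h : Ret i N m a) (hα : α.2 ≠ i) (hn : n / 2 ^ α.1 = D α.2) {b : ℕ} (hb : Ok i N b)
    (h1 : (m + n) / 2 ^ (b + 1) = 2 * D i + 1) : b = a := by
  have e1 := div2.1 h.2.1
  have e2 := div2.1 h1
  rcases lt_trichotomy b a with hl | hl | hl
  · exfalso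
    have : 2 ^ (b + 1) ≤ 2 ^ a := Nat.pow_le_pow_right two_pos hl
    nlinarith
  · exact hl
  · exfalso
    have h2 : a + (i + 3) ≤ b := by
      obtain ⟨c, rfl⟩ := h.1.1
      obtain ⟨d, rfl⟩ := hb.1
      have : c < d := lt_of_mul_lt_mul_left hl (Nat.zero_le _)
      nlinarith
    have h3 : 2 ^ (a + (i + 3) + 1) ≤ 2 ^ (b + 1) := Nat.pow_le_pow_right two_pos (by omega)
    have h4 : 4 * D i + 2 + 1 ≤ 2 ^ (i + 4) := by
      have := Nat.two_pow_pos i
      rw [D, pow_add, pow_add]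
      omega
    have h5 : 2 ^ a * (4 * D i + 2 + 1) ≤ 2 ^ (b + 1) := by
      refine le_trans ?_ h3
      rw [show a + (i + 3) + 1 = a + (i + 4) by ring, pow_add]
      gcongr
    refine hα (zone_uniq hn (t := b + 2) (j := i) ?_).2
    rw [div2, pow_succ 2 (b + 1)]
    constructor <;> nlinarith

lemma chi4 (h : Ret i N m a) (hα : α.2 ≠ i) (hk : α.2 ≤ lev i a) (hn : n / 2 ^ α.1 = D α.2)
    (hy : ¬ Y i N α (r i N (m + n))) : 4 ^ lev i a ≤ n ∧ n % 4 ^ lev i a < 2 ^ lev i a := by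
  have h0 : 2 ^ lev i a ≤ n := by
    by_contra hc
    rw [r_ret h (not_le.1 hc)] at hy
    exact hy (chi2 hα hn)
  have h1 : n % 4 ^ lev i a < 2 ^ lev i a := by
    by_cases hc : ∃ a, Cp i N (m + n) a
    · obtain ⟨b, hb⟩ := hc
      obtain rfl := same h hα hn hb.1 (half hb.2.1)
      obtain ⟨c, hc⟩ := h.2.2
      simpa only [hc, Nat.mul_add_mod] using hb.2.2
    · rw [r_fix hc] at hy
      refine absurd ⟨(W_ge hn).trans (by omega), fun ⟨b, hb⟩ => ?_⟩ hy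
      obtain rfl := same h hα hn hb.1 hb.2.2
      have := hb.2.1
      omega
  refine ⟨?_, h1⟩
  by_contra hc
  rw [Nat.mod_eq_of_lt (not_le.1 hc)] at h1
  omega

lemma count (k B : ℕ) : ∃ F : Finset ℕ, (F.card : ℝ) ≤ B / 2 ^ k ∧
    ∀ n < B, 4 ^ k ≤ n → n % 4 ^ k < 2 ^ k → n ∈ F := by
  have p : 0 < 4 ^ k := by positivity
  refine ⟨(Icc 1 (B / 4 ^ k) ×ˢ range (2 ^ k)).image fun x => 4 ^ k * x.1 + x.2, ?_,
    fun n h1 h2 h3 => mem_image.2 ⟨(n / 4 ^ k, n % 4 ^ k), ?_, Nat.div_add_mod _ _⟩⟩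
  · refine (Nat.cast_le.2 card_image_le).trans ?_
    rw [card_product, Nat.card_Icc, card_range, add_tsub_cancel_right, le_div_iff₀ (by positivity)]
    have := Nat.div_mul_le_self B (4 ^ k)
    rw [show 4 = 2 * 2 from rfl, mul_pow, ← mul_assoc] at this
    rw [show 4 = 2 * 2 from rfl, mul_pow]
    exact_mod_cast this
  · exact mem_product.2 ⟨mem_Icc.2 ⟨Nat.div_pos h2 p, Nat.div_le_div_right h1.le⟩, mem_range.2 h3⟩

lemma dens (i N k : ℕ) : ∃ δ : ℝ, 0 < δ ∧ ∃ M₀ : ℕ, ∀ M : ℕ, M₀ ≤ M →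
    δ * (M : ℝ) ≤ ({n : ℕ | 1 ≤ n ∧ n ≤ M ∧ ∃ a, Ret i N n a ∧ lev i a = k}.ncard : ℕ) := by
  let A := fun j => (i + 3) * (2 ^ k * (2 * (N + j) + 1))
  let E := 4 * D i + 2
  have hA (j) : Ok i N (A j) ∧ lev i (A j) = k ∧ j ≤ A j := by
    have p := Nat.two_pow_pos k
    have : 2 * (N + j) + 1 ≤ A j := by
      refine le_trans ?_ (Nat.le_mul_of_pos_left _ (by omega))
      exact Nat.le_mul_of_pos_left _ p
    refine ⟨⟨dvd_mul_right _ _, by omega, by omega⟩, ?_, by omega⟩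
    rw [lev, Nat.mul_div_cancel_left _ (by omega), padicValNat.mul p.ne' (by omega),
      padicValNat.prime_pow, padicValNat.eq_zero_of_not_dvd (by omega), add_zero]
  refine ⟨1 / (4 ^ k * 2 ^ ((i + 3) * 2 ^ (k + 1)) * (E + 1)), by positivity, 2 ^ A 0 * (E + 1),
    fun M hM => ?_⟩
  obtain ⟨j, h1, h2⟩ := Nat.exists_not_and_succ_of_not_zero_of_exists
    (p := fun j => M < 2 ^ A j * (E + 1)) (not_lt.2 hM) ⟨M, by
      have := (hA M).2.2
      have := (A M).lt_two_pow_self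
      nlinarith⟩
  obtain ⟨o1, o2, -⟩ := hA j
  obtain ⟨e, he⟩ := Nat.exists_eq_add_of_le (lev_le o1)
  have h5 : 2 ^ A j = 4 ^ k * 2 ^ e := by rw [four_eq, ← pow_add, ← o2, ← he]
  have h6 : A (j + 1) = A j + (i + 3) * 2 ^ (k + 1) := by simp only [A]; ring
  have hs : ((range (2 ^ e)).image fun t => 2 ^ A j * E + 4 ^ k * t : Set ℕ) ⊆
      {n : ℕ | 1 ≤ n ∧ n ≤ M ∧ ∃ a, Ret i N n a ∧ lev i a = k} := by
    intro n hn
    obtain ⟨t, ht, rfl⟩ := mem_image.1 (mem_coe.1 hn)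
    have ht2 : 4 ^ k * t < 2 ^ A j := by
      rw [h5]
      gcongr
      exact mem_range.1 ht
    have p := Nat.two_pow_pos (A j)
    have hE : 0 < E := Nat.succ_pos _
    refine ⟨(mul_pos p hE).trans_le (Nat.le_add_right _ _), by nlinarith, A j,
      ⟨o1, (div2 (c := E)).2 ⟨by omega, by nlinarith⟩, ?_⟩, o2⟩
    rw [o2, h5, mul_assoc, ← mul_add]
    exact dvd_mul_right _ _
  have c := Set.ncard_le_ncard hs ((Set.finite_Iic M).subset fun n hn => hn.2.1)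
  rw [Set.ncard_coe_finset, card_image_of_injective _ (fun x y h => by simpa using h),
    card_range] at c
  refine le_trans ?_ (Nat.cast_le.2 c)
  rw [one_div, inv_mul_le_iff₀ (by positivity)]
  rw [h6, pow_add, h5] at h2
  have : M ≤ 4 ^ k * 2 ^ ((i + 3) * 2 ^ (k + 1)) * (E + 1) * 2 ^ e := by nlinarith
  exact_mod_cast this

open Classical in
lemma scale (S : Set ℕ) (δ : ℝ) (I : ℕ) : ∀ e : ℕ,
    (∀ i < I, ∀ s ≥ e, (((Ico (2 ^ s * D i) (2 ^ s * (D i + 1))).filter (· ∈ S)).card : ℝ) ≤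
      δ * 2 ^ s) →
    (((Ico (2 ^ (I + e) + 2 ^ e) (2 ^ (I + e + 1))).filter (· ∈ S)).card : ℝ) ≤
      δ * (2 ^ (I + e) - 2 ^ e) := by
  induction I with
  | zero => intro e _; simp [pow_succ, mul_two]
  | succ I ih =>
    intro e h
    have h1 := ih (e + 1) fun i hi s hs => h i (by omega) s (by omega)
    have h2 := h I (by omega) e le_rfl
    have e1 : 2 ^ e * D I = 2 ^ (I + 1 + e) + 2 ^ e := by unfold D; ring
    have e2 : 2 ^ e * (D I + 1) = 2 ^ (I + 1 + e) + 2 ^ (e + 1) := by unfold D; ring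
    rw [e1, e2] at h2
    rw [show I + (e + 1) = I + 1 + e by ring] at h1
    have l1 : 2 ^ (e + 1) ≤ 2 ^ (I + 1 + e) := Nat.pow_le_pow_right two_pos (by omega)
    have l2 := Nat.two_pow_pos e
    rw [← Ico_union_Ico_eq_Ico (b := 2 ^ (I + 1 + e) + 2 ^ (e + 1)) (by omega) (by omega),
      filter_union]
    refine (Nat.cast_le.2 (card_union_le _ _)).trans ?_
    push_cast
    rw [pow_succ (2 : ℝ) e] at h1
    linarith

open Classical in
lemma sparse (S : Set ℕ) (h : ∀ i, ∀ δ > (0 : ℝ), ∀ᶠ s in atTop,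
    (((Ico (2 ^ s * D i) (2 ^ s * (D i + 1))).filter (· ∈ S)).card : ℝ) ≤ δ * 2 ^ s)
    {ε : ℝ} (hε : 0 < ε) : ∃ M₀ : ℕ, ∀ M : ℕ, M₀ < M →
      (({n : ℕ | 1 ≤ n ∧ n ≤ M ∧ n ∈ S}.ncard : ℕ) : ℝ) < ε * M := by
  obtain ⟨I, hI⟩ := exists_pow_lt_of_lt_one (by positivity : 0 < ε / 8) (by norm_num : (1 / 2 : ℝ) < 1)
  obtain ⟨e₀, he⟩ := eventually_atTop.1
    ((eventually_all_finite (Set.finite_Iio I)).2 fun i _ => h i (ε / 8) (by positivity))
  have h1 (e) (h : e₀ ≤ e) : (((Ico (2 ^ (I + e)) (2 ^ (I + e + 1))).filter (· ∈ S)).card : ℝ) ≤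
      ε / 4 * 2 ^ (I + e) := by
    have h2 := scale S (ε / 8) I e fun i hi s hs => he s (h.trans hs) i hi
    have l1 : 2 ^ e ≤ 2 ^ (I + e) := Nat.pow_le_pow_right two_pos (by omega)
    have l2 := Nat.two_pow_pos e
    rw [← Ico_union_Ico_eq_Ico (b := 2 ^ (I + e) + 2 ^ e) (by omega) (by omega), filter_union]
    refine (Nat.cast_le.2 ((card_union_le _ _).trans
      (add_le_add (card_filter_le _ _) le_rfl))).trans ?_
    rw [Nat.card_Ico, add_tsub_cancel_left]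
    push_cast
    have : (2 : ℝ) ^ e = (1 / 2) ^ I * 2 ^ (I + e) := by
      rw [pow_add, ← mul_assoc, ← mul_pow]; norm_num
    have p : (0 : ℝ) < 2 ^ e := by positivity
    have p2 : (0 : ℝ) < 2 ^ (I + e) := by positivity
    nlinarith
  have h2 (u) : (((range (2 ^ u)).filter (· ∈ S)).card : ℝ) ≤ 2 ^ (I + e₀) + ε / 4 * 2 ^ u := by
    induction u with
    | zero =>
      have := card_filter_le (range (2 ^ 0)) (· ∈ S)
      refine (Nat.cast_le.2 this).trans ?_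
      have : (1 : ℝ) ≤ 2 ^ (I + e₀) := one_le_pow₀ one_le_two
      simp only [pow_zero, range_one, card_singleton, Nat.cast_one]
      linarith
    | succ u ih =>
      rcases lt_or_ge u (I + e₀) with hu | hu
      · refine (Nat.cast_le.2 (card_filter_le _ _)).trans ?_
        have : (2 : ℝ) ^ (u + 1) ≤ 2 ^ (I + e₀) := pow_le_pow_right₀ one_le_two hu
        rw [card_range]
        push_cast
        have : 0 ≤ ε / 4 * 2 ^ (u + 1) := by positivity
        linarith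
      · obtain ⟨e, rfl⟩ : ∃ e, u = I + e := ⟨u - I, by omega⟩
        have l2 := Nat.two_pow_pos (I + e)
        have := h1 e (by omega)
        rw [range_eq_Ico, ← Ico_union_Ico_eq_Ico (b := 2 ^ (I + e)) (by omega) (by omega),
          filter_union, ← range_eq_Ico]
        refine (Nat.cast_le.2 (card_union_le _ _)).trans ?_
        push_cast
        rw [pow_succ (2 : ℝ)]
        linarith
  obtain ⟨M₀, hM⟩ := exists_nat_gt (2 ^ (I + e₀) / (ε / 2))
  refine ⟨M₀, fun M h => ?_⟩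
  have l1 := Nat.lt_pow_succ_log_self one_lt_two M
  have l2 : (2 : ℝ) ^ Nat.log 2 M ≤ M := by exact_mod_cast Nat.pow_log_le_self 2 (by omega : M ≠ 0)
  have hs : {n : ℕ | 1 ≤ n ∧ n ≤ M ∧ n ∈ S} ⊆ ((range (2 ^ (Nat.log 2 M + 1))).filter (· ∈ S) :) :=
    fun n hn => mem_coe.2 (mem_filter.2 ⟨mem_range.2 (hn.2.1.trans_lt l1), hn.2.2⟩)
  have c := Set.ncard_le_ncard hs (finite_toSet _)
  rw [Set.ncard_coe_finset] at c
  refine (Nat.cast_le.2 c).trans_lt ((h2 _).trans_lt ?_)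
  rw [div_lt_iff₀ (by positivity)] at hM
  have : (M₀ : ℝ) < M := by exact_mod_cast h
  rw [pow_succ]
  nlinarith

end Pool.Agent.H.MP_7b2682_an
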