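import Pool.Agent.H.MP_7b2682_an.A

open Finset Filter Topology
open scoped ZeroAtInfty

namespace Pool.Agent.H.MP_7b2682_an

noncomputable def om (α : ℕ × ℕ) (n : ℕ) : ℝ := (1 / 2) ^ n + (1 / 4) ^ α.2 / 2 ^ α.1 *
  if 2 ^ α.1 * D α.2 ≤ n then (1 / 2) ^ (n - 2 ^ α.1 * (D α.2 + 1)) else 0

variable {α : ℕ × ℕ} {n : ℕ}

lemma om_pos (α : ℕ × ℕ) (n : ℕ) : 0 < om α n := by
  unfold om
  split_ifs <;> positivity

lemma om_le (α : ℕ × ℕ) (n : ℕ) : om α n ≤ 2 * om α (n + 1) := by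
  unfold om
  rw [mul_add 2, mul_left_comm 2]
  refine add_le_add (le_of_eq (by ring)) (mul_le_mul_of_nonneg_left ?_ (by positivity))
  split_ifs with h1 h2
  · refine le_trans (le_of_eq ?_) (mul_le_mul_of_nonneg_left (pow_le_pow_of_le_one (by norm_num)
      (by norm_num) (show _ ≤ n - 2 ^ α.1 * (D α.2 + 1) + 1 by omega)) zero_le_two)
    ring
  · omega
  · positivity
  · simp

lemma om_zero (α : ℕ × ℕ) : 1 ≤ om α 0 := by
  unfold om
  rw [pow_zero]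
  refine le_add_of_nonneg_right ?_
  split_ifs <;> positivity

lemma om_W (h : n / 2 ^ α.1 = D α.2) : (1 / 4) ^ α.2 / 2 ^ α.1 ≤ om α n := by
  have := div2.1 h
  unfold om
  rw [if_pos this.1, Nat.sub_eq_zero_of_le this.2.le, pow_zero, mul_one]
  exact le_add_of_nonneg_left (by positivity)

lemma geo_tail (J : ℕ) (t : Finset ℕ) :
    ∑ n ∈ t, (if J ≤ n then (1 / 2 : ℝ) ^ (n - J) else 0) ≤ 2 := by
  rw [← sum_filter, ← sum_image (f := fun n => (1 / 2 : ℝ) ^ n) (g := fun n => n - J)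
    fun x hx y hy h => by
      have := (mem_filter.1 (mem_coe.1 hx)).2
      have := (mem_filter.1 (mem_coe.1 hy)).2
      simp only at h
      omega]
  exact (summable_geometric_two.sum_le_tsum _ fun _ _ => by positivity).trans tsum_geometric_two.le

variable {𝕜 : Type} [RCLike 𝕜]

lemma bnd (α : ℕ × ℕ) (P Q : ℕ → Prop) [DecidablePred P] [DecidablePred Q] (c : 𝕜) (J : ℕ)
    (F : Finset ℕ) (hJ : ∀ n < J, P n ↔ Q n)
    (hF : ∀ n, n / 2 ^ α.1 = D α.2 → n ∉ F → (P n ↔ Q n)) (t : Finset ℕ) :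
    ∑ n ∈ t, om α n * ‖(if P n then c else 0) - (if Q n then c else 0)‖ ≤
      ‖c‖ * (2 * (1 / 2) ^ J + (1 / 4) ^ α.2 / 2 ^ α.1 * (F.card + 2)) := by
  set w : ℝ := (1 / 4) ^ α.2 / 2 ^ α.1
  have w0 : 0 ≤ w := by positivity
  refine (sum_le_sum (g := fun n => ‖c‖ * ((1 / 2) ^ J * (if J ≤ n then (1 / 2 : ℝ) ^ (n - J) else 0)
    + w * ((if n ∈ F then 1 else 0) + if 2 ^ α.1 * (D α.2 + 1) ≤ n then
      (1 / 2 : ℝ) ^ (n - 2 ^ α.1 * (D α.2 + 1)) else 0))) fun n _ => ?_).trans ?_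
  · by_cases h : P n ↔ Q n
    · rw [if_congr h rfl rfl, sub_self, norm_zero, mul_zero]
      split_ifs <;> positivity
    have h1 : J ≤ n := not_lt.1 fun k => h (hJ n k)
    rw [mul_comm]
    refine mul_le_mul ?_ ?_ (om_pos _ _).le (norm_nonneg _)
    · split_ifs <;> simp
    · rw [if_pos h1, ← pow_add, Nat.add_sub_cancel' h1]
      refine add_le_add le_rfl (mul_le_mul_of_nonneg_left ?_ w0)
      by_cases h2 : 2 ^ α.1 * (D α.2 + 1) ≤ n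
      · rw [if_pos h2]
        split_ifs <;> linarith [show (0 : ℝ) ≤ (1 / 2) ^ (n - 2 ^ α.1 * (D α.2 + 1)) by positivity]
      · rw [if_neg h2, Nat.sub_eq_zero_of_le (not_le.1 h2).le]
        split_ifs with h3 h4 <;> try norm_num
        exact h (hF n (div2.2 ⟨h3, not_le.1 h2⟩) h4)
  · rw [← mul_sum, sum_add_distrib, ← mul_sum, ← mul_sum, sum_add_distrib, mul_comm 2]
    gcongr
    · exact geo_tail _ _
    · rw [sum_boole]
      exact_mod_cast card_le_card fun n hn => (mem_filter.1 hn).2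
    · exact geo_tail _ _

lemma om_sum (α : ℕ × ℕ) : Summable (om α) := by
  refine summable_of_sum_le (fun n => (om_pos α n).le) fun t => le_trans (le_of_eq ?_)
    (bnd α (fun _ => True) (fun _ => False) (1 : ℝ) 0 (range (2 ^ α.1 * (D α.2 + 1))) (by simp)
      (fun n h1 h2 => absurd (mem_range.2 (div2.1 h1).2) h2) t)
  simp

open TopologicalSpace in
noncomputable def sig (𝕜 : Type) [RCLike 𝕜] (i : ℕ) : 𝕜 :=
  if ‖denseSeq 𝕜 i.unpair.1‖ ≤ i then denseSeq 𝕜 i.unpair.1 else 0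

lemma sig_dense : DenseRange (sig 𝕜) := by
  refine (TopologicalSpace.denseRange_denseSeq 𝕜).mono ?_
  rintro _ ⟨t, rfl⟩
  obtain ⟨n, hn⟩ := exists_nat_ge ‖TopologicalSpace.denseSeq 𝕜 t‖
  refine ⟨t.pair n, ?_⟩
  rw [sig, Nat.unpair_pair, if_pos (hn.trans (Nat.cast_le.2 (Nat.right_le_pair _ _)))]

noncomputable def gam (i : ℕ) (f : 𝕜 × 𝕜) : 𝕜 := f.2 - sig 𝕜 i * f.1

lemma gam_le (i : ℕ) (f : 𝕜 × 𝕜) : ‖gam i f‖ ≤ 2 ^ i * ‖f‖ := by
  have h1 : ‖sig 𝕜 i‖ ≤ i := by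
    unfold sig
    split_ifs with h
    · exact h
    · simp
  have h2 : (i : ℝ) + 1 ≤ 2 ^ i := by exact_mod_cast i.lt_two_pow_self
  refine (norm_sub_le _ _).trans ?_
  rw [norm_mul]
  nlinarith [norm_fst_le f, norm_snd_le f, norm_nonneg f.1, norm_nonneg (sig 𝕜 i)]

noncomputable def b (α : ℕ × ℕ) (f : 𝕜 × 𝕜) (n : ℕ) : 𝕜 :=
  if 2 ^ (α.1 + α.2) ≤ n then gam α.2 f else 0

lemma bnd0 (α : ℕ × ℕ) (P : ℕ → Prop) [DecidablePred P] (f : 𝕜 × 𝕜)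
    (hJ : ∀ n, n + 1 < 2 ^ (α.1 + α.2) → ¬ P n) (hF : ∀ n, n / 2 ^ α.1 = D α.2 → P n)
    (t : Finset ℕ) : ∑ n ∈ t, om α n * ‖(if P n then gam α.2 f else 0) - b α f n‖ ≤
      ‖f‖ * (6 * (1 / 2) ^ (α.1 + α.2)) := by
  refine (bnd α P _ _ (2 ^ (α.1 + α.2) - 1) ∅ (fun n h => iff_of_false (hJ n (by omega)) (by omega))
    (fun n h _ => iff_of_true (hF n h) (W_ge h)) t).trans ?_
  refine (mul_le_mul_of_nonneg_right (gam_le _ _) (by positivity)).trans ?_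
  rw [mul_comm (2 ^ α.2), mul_assoc]
  refine mul_le_mul_of_nonneg_left ?_ (norm_nonneg _)
  have h1 : (1 / 2 : ℝ) ^ (2 ^ (α.1 + α.2) - 1) ≤ 2 * (1 / 2) ^ (α.1 + α.2 + α.2) := by
    have : 2 * (α.1 + α.2) ≤ 2 ^ (α.1 + α.2) := by
      rcases α.1 + α.2 with _ | k
      · simp
      · have := k.lt_two_pow_self; omega
    refine le_trans (le_of_eq ?_) (mul_le_mul_of_nonneg_left (pow_le_pow_of_le_one (by norm_num)
      (by norm_num) (show _ ≤ 2 ^ (α.1 + α.2) - 1 + 1 by omega)) zero_le_two)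
    ring
  have h2 : (2 : ℝ) ^ α.2 * (1 / 2) ^ (α.1 + α.2 + α.2) = (1 / 2) ^ (α.1 + α.2) := by
    rw [pow_add _ _ α.2, mul_left_comm, ← mul_pow]; norm_num
  have h3 : (2 : ℝ) ^ α.2 * ((1 / 4) ^ α.2 / 2 ^ α.1) = (1 / 2) ^ (α.1 + α.2) := by
    rw [← mul_div_assoc, ← mul_pow, pow_add, one_div_pow]; ring
  have : (0 : ℝ) < 2 ^ α.2 := by positivity
  simp only [card_empty, Nat.cast_zero]
  nlinarith

lemma fin_lt (S : ℕ) : {α : ℕ × ℕ | α.1 + α.2 < S}.Finite :=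
  ((Set.finite_Iio S).prod (Set.finite_Iio S)).subset fun _ h =>
    ⟨(Nat.le_add_right _ _).trans_lt h, (Nat.le_add_left _ _).trans_lt h⟩

lemma tend : Tendsto (fun α : ℕ × ℕ => (1 / 2 : ℝ) ^ (α.1 + α.2)) cofinite (𝓝 0) :=
  (tendsto_pow_atTop_nhds_zero_of_lt_one (by norm_num) (by norm_num)).comp
    (tendsto_atTop.2 fun S => (fin_lt S).subset fun α h => not_le.1 (show ¬ S ≤ α.1 + α.2 from h))

abbrev X (𝕜 : Type) [RCLike 𝕜] : Type := (𝕜 × 𝕜) × C₀(ℕ × ℕ, lp (fun _ : ℕ => 𝕜) 1)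

noncomputable def co (v : X 𝕜) (α : ℕ × ℕ) (n : ℕ) : 𝕜 := v.2 α n / (om α n : ℝ) + b α v.1 n

lemma omne (α : ℕ × ℕ) (n : ℕ) : ((om α n : ℝ) : 𝕜) ≠ 0 :=
  RCLike.ofReal_ne_zero.2 (om_pos α n).ne'

lemma snd_eq (v : X 𝕜) (α : ℕ × ℕ) (n : ℕ) :
    v.2 α n = (om α n : ℝ) * (co v α n - b α v.1 n) := by
  rw [co, add_sub_cancel_right, mul_div_cancel₀ _ (omne α n)]

lemma nm (α : ℕ × ℕ) (n : ℕ) (z : 𝕜) : ‖((om α n : ℝ) : 𝕜) * z‖ = om α n * ‖z‖ := by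
  rw [norm_mul, RCLike.norm_ofReal, abs_of_pos (om_pos α n)]

lemma l1_le {y : lp (fun _ : ℕ => 𝕜) 1} {C : ℝ} (h : ∀ t : Finset ℕ, ∑ n ∈ t, ‖y n‖ ≤ C) :
    ‖y‖ ≤ C :=
  lp.norm_le_of_forall_sum_le (by simp) (by simpa using h ∅) (by simpa using h)

lemma le_l1 (y : lp (fun _ : ℕ => 𝕜) 1) (t : Finset ℕ) : ∑ n ∈ t, ‖y n‖ ≤ ‖y‖ := by
  simpa using lp.sum_rpow_le_norm_rpow (by simp) y t

lemma blk_le (v : X 𝕜) (α : ℕ × ℕ) : ‖v.2 α‖ ≤ ‖v‖ :=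
  (v.2.toBCF.norm_coe_le_norm α).trans (norm_snd_le v)

lemma nrm_le {v : X 𝕜} {C : ℝ} (h1 : ‖v.1‖ ≤ C)
    (h : ∀ α (t : Finset ℕ), ∑ n ∈ t, ‖v.2 α n‖ ≤ C) : ‖v‖ ≤ C :=
  max_le h1 ((BoundedContinuousFunction.norm_le (f := v.2.toBCF) ((norm_nonneg _).trans h1)).2
    fun α => l1_le (h α))

lemma blk_tend (v : X 𝕜) : Tendsto (fun α => ‖v.2 α‖) cofinite (𝓝 0) := by
  have := v.2.zero_at_infty'
  rw [cocompact_eq_cofinite] at this
  exact tendsto_zero_iff_norm_tendsto_zero.1 this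

noncomputable def mk (f : 𝕜 × 𝕜) (x : ℕ × ℕ → ℕ → 𝕜) (β : ℕ × ℕ → ℝ)
    (h : ∀ α (t : Finset ℕ), ∑ n ∈ t, om α n * ‖x α n - b α f n‖ ≤ β α)
    (hβ : Tendsto β cofinite (𝓝 0)) : X 𝕜 :=
  (f, { toFun := fun α => ⟨fun n => (om α n : ℝ) * (x α n - b α f n),
          memℓp_gen' (C := β α) fun t => by simpa [-norm_mul, nm] using h α t⟩
        continuous_toFun := continuous_of_discreteTopology
        zero_at_infty' := by
          rw [cocompact_eq_cofinite]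
          exact squeeze_zero_norm (fun α => l1_le fun t => by simpa only [nm] using h α t) hβ })

lemma co_mk (f : 𝕜 × 𝕜) (x β h hβ) (α : ℕ × ℕ) (n : ℕ) : co (mk f x β h hβ) α n = x α n := by
  change ((om α n : ℝ) : 𝕜) * (x α n - b α f n) / (om α n : ℝ) + b α f n = _
  rw [mul_div_cancel_left₀ _ (omne α n), sub_add_cancel]

lemma ext_co {v w : X 𝕜} (h1 : v.1 = w.1) (h : ∀ α n, co v α n = co w α n) : v = w :=
  Prod.ext h1 (ZeroAtInftyContinuousMap.ext fun α => lp.ext (funext fun n => by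
    rw [snd_eq, snd_eq, h, h1]))

lemma co_add (v w : X 𝕜) (α : ℕ × ℕ) (n : ℕ) : co (v + w) α n = co v α n + co w α n := by
  change (v.2 α n + w.2 α n) / _ + b α (v.1 + w.1) n = _
  simp only [co, b, gam, Prod.fst_add, Prod.snd_add]
  split_ifs <;> ring

lemma co_smul (c : 𝕜) (v : X 𝕜) (α : ℕ × ℕ) (n : ℕ) : co (c • v) α n = c * co v α n := by
  change (c * v.2 α n) / _ + b α (c • v.1) n = _
  simp only [co, b, gam, Prod.smul_fst, Prod.smul_snd, smul_eq_mul]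
  split_ifs <;> ring

lemma T_aux (v : X 𝕜) (α : ℕ × ℕ) (t : Finset ℕ) :
    ∑ n ∈ t, om α n * ‖co v α (n + 1) - b α v.1 n‖ ≤
      2 * ‖v.2 α‖ + ‖v.1‖ * (6 * (1 / 2) ^ (α.1 + α.2)) := by
  refine (sum_le_sum (g := fun n => 2 * ‖v.2 α (n + 1)‖ + om α n * ‖b α v.1 (n + 1) - b α v.1 n‖)
    fun n _ => ?_).trans ?_
  · rw [snd_eq, nm, ← mul_assoc]
    refine (mul_le_mul_of_nonneg_left (norm_sub_le_norm_sub_add_norm_sub _ (b α v.1 (n + 1)) _)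
      (om_pos α n).le).trans ?_
    rw [mul_add]
    gcongr
    exact om_le α n
  · rw [sum_add_distrib, ← mul_sum]
    gcongr
    · exact (sum_map t ⟨Nat.succ, Nat.succ_injective⟩ fun n => ‖v.2 α n‖).symm.le.trans (le_l1 _ _)
    · exact bnd0 α (fun n => 2 ^ (α.1 + α.2) ≤ n + 1) v.1 (fun n h => not_le.2 h)
        (fun n h => (W_ge h).trans n.le_succ) t

noncomputable def T0 (v : X 𝕜) : X 𝕜 := mk v.1 (fun α n => co v α (n + 1)) _ (T_aux v)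
  (by simpa using ((blk_tend v).const_mul 2).add ((tend.const_mul 6).const_mul ‖v.1‖))

noncomputable def T (𝕜 : Type) [RCLike 𝕜] : X 𝕜 →L[𝕜] X 𝕜 := LinearMap.mkContinuous
  { toFun := T0
    map_add' := fun v w => ext_co rfl fun α n => by simp only [T0, co_add, co_mk]
    map_smul' := fun c v => ext_co rfl fun α n => by simp only [T0, co_smul, co_mk, RingHom.id_apply] }
  8 fun v => by
    have := norm_fst_le v
    have := norm_nonneg v.1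
    refine nrm_le (v := T0 v) (show ‖v.1‖ ≤ _ by linarith) fun α t => ?_
    refine le_trans (le_of_eq ?_) ((T_aux v α t).trans ?_)
    · exact sum_congr rfl fun n _ => nm _ _ _
    · have : (1 / 2 : ℝ) ^ (α.1 + α.2) ≤ 1 := pow_le_one₀ (by norm_num) (by norm_num)
      nlinarith [blk_le v α]

lemma co_T (v : X 𝕜) (α : ℕ × ℕ) (n : ℕ) : co (T 𝕜 v) α n = co v α (n + 1) := by
  change co (T0 v) α n = _
  rw [T0, co_mk]

lemma Tp (m : ℕ) (v : X 𝕜) :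
    ((T 𝕜 ^ m) v).1 = v.1 ∧ ∀ α n, co ((T 𝕜 ^ m) v) α n = co v α (m + n) := by
  induction m with
  | zero => simp
  | succ m ih =>
    rw [pow_succ']
    exact ⟨ih.1, fun α n => (co_T _ α n).trans ((ih.2 α (n + 1)).trans (by congr 1; ring))⟩

lemma Tp_sub (m : ℕ) (v : X 𝕜) (α : ℕ × ℕ) (n : ℕ) :
    ‖((T 𝕜 ^ m) v - v).2 α n‖ = om α n * ‖co v α (m + n) - co v α n‖ := by
  change ‖((T 𝕜 ^ m) v).2 α n - v.2 α n‖ = _
  rw [snd_eq, snd_eq, (Tp m v).1, (Tp m v).2, ← mul_sub, nm, sub_sub_sub_cancel_right]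

end Pool.Agent.H.MP_7b2682_an
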