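import Pool.Agent.H.MP_7b2682_an.B

open Finset Filter Topology
open scoped ZeroAtInfty

namespace Pool.Agent.H.MP_7b2682_an

lemma tail {g : ℕ → ℝ} (hg : Summable g) {ε : ℝ} (hε : 0 < ε) : ∀ᶠ J in atTop, ∀ h : ℕ → ℝ,
    (∀ n < J, h n = 0) → (∀ n, h n ≤ g n) → ∀ t : Finset ℕ, ∑ n ∈ t, h n ≤ ε := by
  obtain ⟨s, hs⟩ := summable_iff_vanishing_norm.1 hg ε hε
  filter_upwards [eventually_gt_atTop (s.sup id)] with J hJ h h1 h2 t
  rw [← sum_filter_of_ne (p := fun n => J ≤ n) fun n _ h => not_lt.1 fun k => h (h1 n k)]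
  refine (sum_le_sum fun n _ => h2 n).trans ((le_abs_self _).trans (hs _ ?_).le)
  refine disjoint_left.2 fun n hn h => ?_
  have := (mem_filter.1 hn).2
  have : n ≤ s.sup id := le_sup (f := id) h
  omega

variable {𝕜 : Type} [RCLike 𝕜]

def FR (v : X 𝕜) : Prop := ∀ U ∈ 𝓝 v, ∃ δ : ℝ, 0 < δ ∧ ∃ N₀ : ℕ, ∀ N : ℕ, N₀ ≤ N →
  δ * (N : ℝ) ≤ (({n : ℕ | 1 ≤ n ∧ n ≤ N ∧ (T 𝕜 ^ n) v ∈ U}.ncard : ℕ) : ℝ)

lemma two_mul_le (k : ℕ) : 2 * k ≤ 2 ^ k := by
  rcases k with _ | k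
  · simp
  · have := k.lt_two_pow_self; omega

open Classical in
lemma far {i N m a K : ℕ} {α : ℕ × ℕ} (f : 𝕜 × 𝕜) (h : Ret i N m a) (hα : α.2 ≠ i)
    (hK : 2 * K ≤ lev i a) (h1 : K ≤ α.1 + α.2)
    (h2 : (α.1 + α.2 + K) * (4 * D i + 4) ≤ 2 ^ (α.1 + α.2)) (t : Finset ℕ) :
    ∑ n ∈ t, om α n * ‖(if Y i N α (r i N (m + n)) then gam α.2 f else 0) -
      (if Y i N α (r i N n) then gam α.2 f else 0)‖ ≤ ‖f‖ * (8 * (1 / 2) ^ K) := by
  obtain ⟨J, hJ, hJb⟩ : ∃ J, (∀ n < J, Y i N α (r i N (m + n)) ↔ Y i N α (r i N n)) ∧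
      α.2 + K ≤ J := by
    rcases le_or_gt α.2 (lev i a) with hk | hk
    · exact ⟨2 ^ lev i a, fun n hn => by rw [r_ret h hn], by have := two_mul_le (lev i a); omega⟩
    · refine ⟨α.2 + K, fun n hn => iff_of_false ?_ fun hy => ?_, le_rfl⟩
      · rcases lt_or_ge n (2 ^ a) with h3 | h3
        · exact chi3 h hk h3
        · intro hy
          have := hy.1.trans r_le
          have := (div2.1 h.2.1).2
          nlinarith
      · have := hy.1.trans r_le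
        nlinarith
  have q (u v : ℕ) (h : u ≤ v) : (1 / 2 : ℝ) ^ v ≤ (1 / 2) ^ u :=
    pow_le_pow_of_le_one (by norm_num) (by norm_num) h
  have p1 : (0 : ℝ) < 2 ^ α.1 := by positivity
  have p2 : (0 : ℝ) < 2 ^ α.2 := by positivity
  have p3 : (0 : ℝ) < (1 / 2) ^ K := by positivity
  obtain ⟨F, hF, hFb⟩ : ∃ F : Finset ℕ, (∀ n, n / 2 ^ α.1 = D α.2 → n ∉ F →
      (Y i N α (r i N (m + n)) ↔ Y i N α (r i N n))) ∧
      (1 / 2 : ℝ) ^ α.2 * F.card ≤ 4 * (1 / 2) ^ K * 2 ^ α.1 := by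
    rcases le_or_gt α.2 K with hk | hk
    · obtain ⟨F, c1, c2⟩ := count (lev i a) (2 ^ (α.1 + (K + 2)))
      refine ⟨F, fun n hn hF => iff_of_true ?_ (chi2 hα hn), ?_⟩
      · by_contra hy
        obtain ⟨c3, c4⟩ := chi4 h hα (by omega) hn hy
        refine hF (c2 n ((div2.1 hn).2.trans_le ?_) c3 c4)
        rw [pow_add]
        refine Nat.mul_le_mul_left _ ?_
        have := Nat.pow_le_pow_right two_pos hk
        have := Nat.two_pow_pos α.2
        rw [D, pow_add, pow_add]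
        omega
      · refine (mul_le_of_le_one_left (Nat.cast_nonneg _) (by simpa using q 0 _ α.2.zero_le)).trans
          (c1.trans ?_)
        have e : (2 : ℝ) ^ (α.1 + (K + 2)) * (1 / 2) ^ (2 * K) = 4 * (1 / 2) ^ K * 2 ^ α.1 := by
          rw [two_mul, pow_add, pow_add, pow_add, one_div_pow]
          field_simp
          norm_num
        rw [← e, div_eq_mul_one_div, ← one_div_pow]
        push_cast
        exact mul_le_mul_of_nonneg_left (q _ _ hK) (by positivity)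
    · refine ⟨Ico (2 ^ α.1 * D α.2) (2 ^ α.1 * (D α.2 + 1)),
        fun n hn hF => absurd (mem_Ico.2 (div2.1 hn)) hF, ?_⟩
      rw [Nat.card_Ico, mul_add, add_tsub_cancel_left, mul_one]
      push_cast
      have := q _ _ hk.le
      nlinarith
  refine (bnd α _ _ _ J F hJ hF t).trans ?_
  refine (mul_le_mul_of_nonneg_right (gam_le _ _) (by positivity)).trans ?_
  rw [mul_comm (2 ^ α.2), mul_assoc]
  refine mul_le_mul_of_nonneg_left ?_ (norm_nonneg _)
  have e1 : (2 : ℝ) ^ α.2 * (1 / 2) ^ J ≤ (1 / 2) ^ K := by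
    refine (mul_le_mul_of_nonneg_left (q _ _ hJb) p2.le).trans (le_of_eq ?_)
    rw [pow_add, ← mul_assoc, ← mul_pow]; norm_num
  have e2 : (2 : ℝ) ^ α.2 * ((1 / 4) ^ α.2 / 2 ^ α.1 * (F.card + 2)) =
      (1 / 2) ^ α.2 * F.card / 2 ^ α.1 + 2 * (1 / 2) ^ (α.1 + α.2) := by
    rw [← mul_assoc, ← mul_div_assoc, ← mul_pow, pow_add, one_div_pow (2 : ℝ) α.1]
    norm_num
    ring
  rw [← div_le_iff₀ p1] at hFb
  have := q _ _ h1
  rw [mul_add, e2]
  linarith

open Classical in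
lemma fr_of {i N S₀ : ℕ} {v : X 𝕜} {y : ℕ × ℕ → ℕ → 𝕜} {B : ℕ × ℕ → ℝ} (hi : gam i v.1 = 0)
    (hv : ∀ α n, co v α n = y α (r i N n)) (hB : ∀ α n, ‖y α n‖ ≤ B α)
    (hy : ∀ α n, S₀ ≤ α.1 + α.2 → y α n = if Y i N α n then gam α.2 v.1 else 0) : FR v := by
  intro U hU
  obtain ⟨ε, hε, hb⟩ := Metric.nhds_basis_closedBall.mem_iff.1 hU
  obtain ⟨K, hK⟩ := (((tendsto_pow_atTop_nhds_zero_of_lt_one (r := (1 / 2 : ℝ)) (by norm_num)
    (by norm_num)).const_mul 8).const_mul ‖v.1‖).eventually (ge_mem_nhds (by simpa using hε)) |>.exists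
  have e1 : ∀ᶠ t : ℕ in atTop, (t + K) * (4 * D i + 4) ≤ 2 ^ t := by
    have := (tendsto_pow_const_div_const_pow_of_one_lt 2 (by norm_num : (1 : ℝ) < 2)).eventually
      (ge_mem_nhds (show (0 : ℝ) < 1 / 2 by norm_num))
    filter_upwards [this, eventually_ge_atTop K, eventually_ge_atTop (4 * D i + 4)] with t h1 h2 h3
    rw [div_le_iff₀ (by positivity)] at h1
    have : 2 * t ^ 2 ≤ 2 ^ t := by exact_mod_cast (show 2 * (t : ℝ) ^ 2 ≤ 2 ^ t by linarith)
    nlinarith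
  obtain ⟨S, hS⟩ := eventually_atTop.1 (e1.and ((eventually_ge_atTop K).and (eventually_ge_atTop S₀)))
  have e2 := (eventually_all_finite (fin_lt S)).2 fun α _ => tail ((om_sum α).mul_right (2 * B α)) hε
  obtain ⟨k, h1, h2⟩ := (((tendsto_pow_atTop_atTop_of_one_lt one_lt_two).eventually e2).and
    (eventually_ge_atTop (2 * K))).exists
  obtain ⟨δ, hδ, M₀, hM⟩ := dens i N k
  refine ⟨δ, hδ, M₀, fun M h => (hM M h).trans (Nat.cast_le.2 (Set.ncard_le_ncard ?_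
    ((Set.finite_Iic M).subset fun n hn => hn.2.1)))⟩
  rintro m ⟨m1, m2, a, ha, rfl⟩
  refine ⟨m1, m2, hb (mem_closedBall_iff_norm.2 (nrm_le ?_ fun α t => ?_))⟩
  · rw [Prod.fst_sub, (Tp m v).1, sub_self, norm_zero]
    exact hε.le
  simp only [Tp_sub, hv]
  rcases lt_or_ge (α.1 + α.2) S with hα | hα
  · refine h1 α hα _ (fun n hn => by rw [r_ret ha hn, sub_self, norm_zero, mul_zero]) (fun n => ?_) t
    refine mul_le_mul_of_nonneg_left ((norm_sub_le _ _).trans ?_) (om_pos _ _).le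
    linarith [hB α (r i N (m + n)), hB α (r i N n)]
  · obtain ⟨s1, s2, s3⟩ := hS _ hα
    simp only [hy α _ s3]
    by_cases hi2 : α.2 = i
    · simp [hi2, hi, hε.le]
    · exact (far v.1 ha hi2 h2 s2 s1 t).trans hK

lemma dirs (f : 𝕜 × 𝕜) {ε : ℝ} (hε : 0 < ε) : ∃ g i, gam i g = 0 ∧ ‖g - f‖ ≤ ε := by
  obtain ⟨c, h0, hc⟩ : ∃ c : 𝕜, c ≠ 0 ∧ ‖c - f.1‖ ≤ ε := by
    by_cases h : f.1 = 0
    · exact ⟨(ε : ℝ), RCLike.ofReal_ne_zero.2 hε.ne', by simp [h, abs_of_pos hε]⟩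
    · exact ⟨f.1, h, by simp [hε.le]⟩
  have p := norm_pos_iff.2 h0
  obtain ⟨i, hi⟩ := sig_dense.exists_dist_lt (f.2 / c) (div_pos hε p)
  refine ⟨(c, sig 𝕜 i * c), i, sub_self _, max_le hc ?_⟩
  rw [dist_comm, dist_eq_norm, lt_div_iff₀ p, ← norm_mul, sub_mul, div_mul_cancel₀ _ h0] at hi
  exact hi.le

open Classical in
theorem fr_dense : Dense {v : X 𝕜 | FR v} := by
  refine Metric.dense_iff.2 fun v ε hε => ?_
  suffices ∃ w, FR w ∧ ‖w - v‖ ≤ ε / 4 + ε / 4 by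
    obtain ⟨w, h1, h2⟩ := this
    exact ⟨w, mem_ball_iff_norm.2 (by linarith), h1⟩
  have hε4 : 0 < ε / 4 := by positivity
  generalize ε / 4 = ε at hε4
  obtain ⟨f, i, hi, hf⟩ := dirs v.1 hε4
  have t0 : Tendsto (fun α : ℕ × ℕ => ‖f‖ * (6 * (1 / 2 : ℝ) ^ (α.1 + α.2))) cofinite (𝓝 0) := by
    simpa using (tend.const_mul 6).const_mul ‖f‖
  obtain ⟨S, hS⟩ : ∃ S, ∀ α : ℕ × ℕ, S ≤ α.1 + α.2 → ‖v.2 α‖ ≤ ε ∧
      ‖f‖ * (6 * (1 / 2 : ℝ) ^ (α.1 + α.2)) ≤ ε := by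
    have := ((blk_tend v).eventually (ge_mem_nhds hε4)).and (t0.eventually (ge_mem_nhds hε4))
    obtain ⟨S, hS⟩ := ((eventually_cofinite.1 this).image fun α => α.1 + α.2).bddAbove
    refine ⟨S + 1, fun α h => by_contra fun hc => ?_⟩
    have : α.1 + α.2 ≤ S := hS ⟨α, hc, rfl⟩
    omega
  obtain ⟨N₁, h1⟩ := ((eventually_all_finite (fin_lt S)).2 fun α _ => tail (g := fun n => ‖v.2 α n‖)
    (summable_of_sum_le (fun _ => norm_nonneg _) (le_l1 _)) hε4).exists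
  let z : ℕ × ℕ → ℕ → 𝕜 := fun α n => if n < N₁ then v.2 α n / (om α n : ℝ) else 0
  let B : ℕ × ℕ → ℝ := fun α => ‖gam α.2 f‖ + ∑ n ∈ range N₁, ‖z α n‖
  have hz (α n) : ‖z α n‖ ≤ ∑ n ∈ range N₁, ‖z α n‖ := by
    by_cases h : n < N₁
    · exact single_le_sum (f := fun n => ‖z α n‖) (fun _ _ => norm_nonneg _) (mem_range.2 h)
    · simp only [z, if_neg h, norm_zero]
      positivity
  have hite (p : Prop) (c : 𝕜) [Decidable p] : ‖if p then c else 0‖ ≤ ‖c‖ := by split_ifs <;> simp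
  obtain ⟨N, h2, h3⟩ := (((eventually_all_finite (fin_lt S)).2 fun α _ =>
    tail ((om_sum α).mul_right (2 * B α)) hε4).and (eventually_ge_atTop N₁)).exists
  let y : ℕ × ℕ → ℕ → 𝕜 := fun α n => if α.1 + α.2 < S then b α f n + z α n else
    if Y i N α n then gam α.2 f else 0
  have hy (α n) : ‖y α n‖ ≤ B α := by
    simp only [y, B]
    split_ifs
    · exact norm_add_le_of_le (hite _ _) (hz α n)
    · exact le_add_of_nonneg_right (by positivity)
    · rw [norm_zero]; positivity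
  have hy2 (α n) : om α n * ‖y α (r i N n) - b α f n‖ ≤ om α n * (2 * B α) := by
    refine mul_le_mul_of_nonneg_left ((norm_sub_le _ _).trans ?_) (om_pos _ _).le
    have : ‖b α f n‖ ≤ B α := (hite _ _).trans (le_add_of_nonneg_right (by positivity))
    linarith [hy α (r i N n)]
  let β : ℕ × ℕ → ℝ := fun α => if α.1 + α.2 < S then ∑' n, om α n * (2 * B α) else
    ‖f‖ * (6 * (1 / 2 : ℝ) ^ (α.1 + α.2))
  have hβ (α) (t : Finset ℕ) : ∑ n ∈ t, om α n * ‖y α (r i N n) - b α f n‖ ≤ β α := by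
    by_cases h : α.1 + α.2 < S
    · simp only [β, if_pos h]
      exact (sum_le_sum fun n _ => hy2 α n).trans (((om_sum α).mul_right _).sum_le_tsum _
        fun n _ => le_trans (by have := om_pos α n; positivity) (hy2 α n))
    · simp only [β, y, if_neg h]
      by_cases hi2 : α.2 = i
      · simp only [b, hi2, hi, ite_self, sub_self, norm_zero, mul_zero, sum_const_zero]
        positivity
      · exact bnd0 α (fun n => Y i N α (r i N n)) f
          (fun n hn hy => by have := hy.1.trans r_le; omega) (fun n hn => chi2 hi2 hn) t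
  have hβ2 : Tendsto β cofinite (𝓝 0) := t0.congr' ((fin_lt S).subset fun α h =>
    by_contra fun hc => h (if_neg hc).symm)
  refine ⟨mk f (fun α n => y α (r i N n)) β hβ hβ2, fr_of (S₀ := S) (y := y) hi
    (fun α n => co_mk _ _ _ _ _ α n) hy fun α n h => if_neg (not_lt.2 h),
    nrm_le (hf.trans (by linarith)) fun α t => ?_⟩
  change ∑ n ∈ t, ‖((om α n : ℝ) : 𝕜) * (y α (r i N n) - b α f n) - v.2 α n‖ ≤ _
  by_cases h : α.1 + α.2 < S
  · refine (sum_le_sum (g := fun n => (if n < N then 0 else om α n * (2 * B α)) +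
      if n < N₁ then 0 else ‖v.2 α n‖) fun n _ => ?_).trans ?_
    · by_cases k : n < N
      · simp only [y, z, if_pos h, if_pos k, r_small k.le, add_sub_cancel_left, zero_add]
        split_ifs
        · rw [mul_div_cancel₀ _ (omne α n), sub_self, norm_zero]
        · simp
      · rw [if_neg k, if_neg (by omega)]
        exact norm_sub_le_of_le ((nm _ _ _).le.trans (hy2 α n)) le_rfl
    · rw [sum_add_distrib]
      refine add_le_add (h2 α h _ (fun n hn => if_pos hn) (fun n => ?_) t)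
        (h1 α h _ (fun n hn => if_pos hn) (fun n => ?_) t)
      · split_ifs
        · exact le_trans (by have := om_pos α n; positivity) (hy2 α n)
        · exact le_rfl
      · split_ifs <;> simp
  · obtain ⟨s1, s2⟩ := hS α (not_lt.1 h)
    refine (sum_le_sum fun n _ => norm_sub_le_of_le (nm _ _ _).le le_rfl).trans ?_
    rw [sum_add_distrib]
    exact add_le_add ((hβ α t).trans ((if_neg h).le.trans s2)) ((le_l1 _ _).trans s1)

theorem block {v : X 𝕜} (hv : v.1 = (0, 1)) {ε : ℝ} (hε : 0 < ε) : ∃ M₀ : ℕ, ∀ M : ℕ, M₀ < M →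
    (({n : ℕ | 1 ≤ n ∧ n ≤ M ∧ (T 𝕜 ^ n) v ∈ Metric.ball v (1 / 4)}.ncard : ℕ) : ℝ) < ε * M := by
  classical
  refine sparse {n | (T 𝕜 ^ n) v ∈ Metric.ball v (1 / 4)} (fun i δ hδ => ?_) hε
  have t0 : Tendsto (fun s => ‖v.2 (s, i)‖) atTop (𝓝 0) := by
    rw [← Nat.cofinite_eq_atTop]
    exact (blk_tend v).comp (Prod.mk_left_injective i).tendsto_cofinite
  filter_upwards [t0.eventually (ge_mem_nhds (show (0 : ℝ) < 1 / 4 by norm_num)),
    t0.eventually (ge_mem_nhds (show 0 < δ * (1 / 4) ^ i / 2 by positivity))] with s h1 h2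
  have h3 := (card_nsmul_le_sum _ _ ((1 / 4) ^ i / 2 ^ s / 2) fun n hn => ?_).trans
    ((le_l1 (v.2 (s, i)) ((Ico (2 ^ s * D i) (2 ^ s * (D i + 1))).filter
      (· ∈ {n | (T 𝕜 ^ n) v ∈ Metric.ball v (1 / 4)}))).trans h2)
  · rw [nsmul_eq_mul, ← mul_div_assoc, div_le_div_iff_of_pos_right two_pos, ← mul_div_assoc,
      div_le_iff₀ (by positivity), mul_right_comm] at h3
    have h4 := le_of_mul_le_mul_right h3 (by positivity)
    refine le_of_eq_of_le ?_ h4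
    congr
  obtain ⟨n1, n2⟩ := mem_filter.1 hn
  have hW : n / 2 ^ (s, i).1 = D (s, i).2 := div2.2 (mem_Ico.1 n1)
  have a1 := ((lp.norm_apply_le_norm one_ne_zero _ 0).trans (blk_le _ (s, i))).trans_lt
    (mem_ball_iff_norm.1 n2)
  rw [Tp_sub, add_zero] at a1
  have a2 := (le_mul_of_one_le_left (norm_nonneg _) (om_zero _)).trans_lt a1
  have a3 := (lp.norm_apply_le_norm one_ne_zero _ 0).trans h1
  rw [snd_eq, nm, b, if_neg (Nat.two_pow_pos _).not_ge, sub_zero] at a3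
  have a4 := (le_mul_of_one_le_left (norm_nonneg _) (om_zero _)).trans a3
  rw [snd_eq, nm, b, if_pos (W_ge hW), hv, show gam (s, i).2 ((0, 1) : 𝕜 × 𝕜) = 1 by simp [gam],
    div_eq_mul_one_div _ 2]
  refine mul_le_mul (om_W hW) ?_ (by norm_num) (om_pos _ _).le
  have a5 := norm_sub_norm_le 1 (co v (s, i) n)
  have a6 := norm_sub_norm_le (co v (s, i) n) (co v (s, i) 0)
  rw [norm_one, norm_sub_rev] at a5
  linarith

theorem sub_hit (M : Submodule 𝕜 (X 𝕜)) (hM : Dense (M : Set (X 𝕜))) :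
    ∃ v ∈ M, v.1 = (0, 1) := by
  have h1 : Dense ((M.map (LinearMap.fst 𝕜 _ _) : Submodule 𝕜 (𝕜 × 𝕜)) : Set (𝕜 × 𝕜)) :=
    Prod.fst_surjective.denseRange.dense_image continuous_fst hM
  have h2 := h1 (0, 1)
  rw [(Submodule.closed_of_finiteDimensional _).closure_eq] at h2
  exact h2

end Pool.Agent.H.MP_7b2682_an
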